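import Mathlib
import Pool.Agent.H105Z.DL.Main

set_option autoImplicit false

namespace Pool.Agent.Results.MP_8c175f_gt.ATychonoffCounterexample

/-- There is a Tychonoff (so T1) space in which the closure of every discrete subspace is
Lindelof, and which has an open cover with no countable subfamily whose union is dense. -/
theorem result :
    ∃ (X : Type) (_ : TopologicalSpace X), T1Space X ∧ T35Space X ∧
      (∀ D : Set X, DiscreteTopology D → LindelofSpace (closure D)) ∧
      ∃ 𝒰 : Set (Set X), (∀ U ∈ 𝒰, IsOpen U) ∧ ⋃₀ 𝒰 = Set.univ ∧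
        ∀ 𝒱 : Set (Set X), 𝒱 ⊆ 𝒰 → 𝒱.Countable → ¬ Dense (⋃₀ 𝒱) := by
  obtain ⟨X, _, hT, hD, hW⟩ := Pool.Agent.H105Z.DL.main
  exact ⟨X, inferInstance, inferInstance, hT,
    fun D h => isLindelof_iff_lindelofSpace.1 (hD D ⟨h⟩), hW⟩

end Pool.Agent.Results.MP_8c175f_gt.ATychonoffCounterexample
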